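import Mathlib

/-!
# Fixed-point-free automorphisms of `𝒫(ω₁)/Fin` and ladder system uniformization

`Ω` is a well-order of type `ω₁`: uncountable, with all proper initial segments countable.
`ModFin Ω` is the power set of `Ω` preordered by inclusion modulo finite sets, and `PFin Ω` is the
resulting quotient `𝒫(ω₁)/Fin`.
-/

namespace Pool.Agent.Results.MP_913d7c_lc.LadderUniformization

open Set

/-- Inclusion modulo finite. -/
def le' {Ω : Type} (A B : Set Ω) : Prop := (A \ B).Finite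

/-- Equality modulo finite. -/
def eq' {Ω : Type} (A B : Set Ω) : Prop := le' A B ∧ le' B A

lemma le'_refl {Ω : Type} (A : Set Ω) : le' A A := by simp [le']

lemma le'_trans {Ω : Type} {A B C : Set Ω} (h1 : le' A B) (h2 : le' B C) : le' A C := by
  refine (h1.union h2).subset ?_
  intro x hx
  by_cases hxB : x ∈ B
  · exact Or.inr ⟨hxB, hx.2⟩
  · exact Or.inl ⟨hx.1, hxB⟩

/-- The power set of `Ω`, preordered by inclusion modulo finite sets. -/
def ModFin (Ω : Type) : Type := Set Ω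

instance (Ω : Type) : Preorder (ModFin Ω) where
  le A B := le' (Ω := Ω) A B
  le_refl A := le'_refl (Ω := Ω) A
  le_trans _ _ _ h1 h2 := le'_trans (Ω := Ω) h1 h2

/-- The Boolean algebra `𝒫(Ω)/Fin` (as a partial order). -/
abbrev PFin (Ω : Type) : Type := Antisymmetrization (ModFin Ω) (· ≤ ·)

/-- The class of a set. -/
def cls {Ω : Type} (A : Set Ω) : PFin Ω := toAntisymmetrization (α := ModFin Ω) (· ≤ ·) A

/-- Closed unbounded subsets of a well-order of type `ω₁`. -/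
def IsClub {Ω : Type} [LinearOrder Ω] (E : Set Ω) : Prop :=
  (∀ β : Ω, ∃ γ ∈ E, β < γ) ∧
  ∀ α : Ω, (∃ β, β < α) → (∀ β < α, ∃ γ ∈ E, β < γ ∧ γ < α) → α ∈ E

/-- `S` carries a uniformizable ladder system: there are infinite sets `D α ⊆ α` (`α ∈ S`), finite
below every `β < α`, such that any choice of subsets of the sets `D α` (here `x α ∩ D α`) is induced,
modulo finite sets, by one set `X ⊆ Ω`. -/
def Uniformizable {Ω : Type} [LinearOrder Ω] (S : Set Ω) : Prop :=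
  ∃ D : Ω → Set Ω,
    (∀ α ∈ S, (D α).Infinite ∧ D α ⊆ Iio α ∧ ∀ β < α, (D α ∩ Iio β).Finite) ∧
    ∀ x : Ω → Set Ω, ∃ X : Set Ω, ∀ α ∈ S, (symmDiff (X ∩ D α) (x α ∩ D α)).Finite

section basic
variable {Ω : Type}

lemma le'_of_subset {A B : Set Ω} (h : A ⊆ B) : le' A B := by
  unfold le'
  rw [Set.sdiff_eq_empty.2 h]
  exact Set.finite_empty

lemma le'_inter {A B C : Set Ω} (h1 : le' A B) (h2 : le' A C) : le' A (B ∩ C) := by
  refine (h1.union h2).subset ?_
  intro x hx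
  by_cases hxB : x ∈ B
  · exact Or.inr ⟨hx.1, fun h => hx.2 ⟨hxB, h⟩⟩
  · exact Or.inl ⟨hx.1, hxB⟩

lemma eq'_refl (A : Set Ω) : eq' A A := ⟨le'_refl A, le'_refl A⟩

lemma eq'_symm {A B : Set Ω} (h : eq' A B) : eq' B A := ⟨h.2, h.1⟩

lemma eq'_trans {A B C : Set Ω} (h1 : eq' A B) (h2 : eq' B C) : eq' A C :=
  ⟨le'_trans h1.1 h2.1, le'_trans h2.2 h1.2⟩

lemma eq'_inter {A B C D : Set Ω} (h1 : eq' A B) (h2 : eq' C D) : eq' (A ∩ C) (B ∩ D) :=
  ⟨le'_inter (le'_trans (le'_of_subset inter_subset_left) h1.1)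
      (le'_trans (le'_of_subset inter_subset_right) h2.1),
   le'_inter (le'_trans (le'_of_subset inter_subset_left) h1.2)
      (le'_trans (le'_of_subset inter_subset_right) h2.2)⟩

lemma le'_empty_iff {A : Set Ω} : le' A ∅ ↔ A.Finite := by simp [le']

/-- A pair of mutually inverse liftings. -/
structure Lift (f g : Set Ω → Set Ω) : Prop where
  mono : ∀ A B, le' A B → le' (f A) (f B)
  monoInv : ∀ A B, le' A B → le' (g A) (g B)
  fg : ∀ A, eq' (f (g A)) A
  gf : ∀ A, eq' (g (f A)) A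

lemma Lift.symm {f g : Set Ω → Set Ω} (h : Lift f g) : Lift g f :=
  ⟨h.monoInv, h.mono, h.gf, h.fg⟩

lemma Lift.congr {f g : Set Ω → Set Ω} (h : Lift f g) {A B : Set Ω} (hAB : eq' A B) :
    eq' (f A) (f B) := ⟨h.mono _ _ hAB.1, h.mono _ _ hAB.2⟩

lemma Lift.inter {f g : Set Ω → Set Ω} (h : Lift f g) (A B : Set Ω) :
    eq' (f (A ∩ B)) (f A ∩ f B) := by
  refine ⟨le'_inter (h.mono _ _ (le'_of_subset inter_subset_left))
    (h.mono _ _ (le'_of_subset inter_subset_right)), ?_⟩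
  have h1 : le' (g (f A ∩ f B)) A :=
    le'_trans (h.monoInv _ _ (le'_of_subset inter_subset_left)) (h.gf A).1
  have h2 : le' (g (f A ∩ f B)) B :=
    le'_trans (h.monoInv _ _ (le'_of_subset inter_subset_right)) (h.gf B).1
  exact le'_trans (h.fg (f A ∩ f B)).2 (h.mono _ _ (le'_inter h1 h2))

lemma Lift.empty {f g : Set Ω → Set Ω} (h : Lift f g) : eq' (f ∅) ∅ := by
  refine ⟨?_, le'_of_subset (empty_subset _)⟩
  exact le'_trans (h.mono _ _ (le'_of_subset (empty_subset (g ∅)))) (h.fg ∅).1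

end basic

section order
variable {Ω : Type} [LinearOrder Ω] [WellFoundedLT Ω]

omit [WellFoundedLT Ω] in
lemma exists_bound (hunc : ¬ (univ : Set Ω).Countable) (hctb : ∀ a : Ω, (Iio a).Countable)
    {s : Set Ω} (hs : s.Countable) : ∃ b, ∀ x ∈ s, x < b := by
  by_contra hcon
  push Not at hcon
  apply hunc
  have h1 : (⋃ x ∈ s, Iic x).Countable := by
    apply hs.biUnion
    intro x _
    have : Iic x = insert x (Iio x) := by
      ext y
      simp [le_iff_eq_or_lt]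
    rw [this]
    exact (hctb x).insert x
  refine h1.mono ?_
  intro b _
  obtain ⟨x, hx, hxb⟩ := hcon b
  simp only [mem_iUnion]
  exact ⟨x, hx, hxb⟩

/-- Nonzero points closed under `h`. -/
def Good (h : Ω → Ω) (α : Ω) : Prop := (∃ β, β < α) ∧ ∀ β < α, h β < α

lemma exists_good (hunc : ¬ (univ : Set Ω).Countable) (hctb : ∀ a : Ω, (Iio a).Countable)
    (h : Ω → Ω) (b0 : Ω) : ∃ α, b0 < α ∧ Good h α := by
  classical
  have hk : ∀ β : Ω, ∃ k : Ω, β < k ∧ ∀ γ ≤ β, h γ < k := by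
    intro β
    have hs : (insert β (h '' Iic β)).Countable := by
      refine (?_ : (h '' Iic β).Countable).insert _
      apply Set.Countable.image
      have : Iic β = insert β (Iio β) := by
        ext y
        simp [le_iff_eq_or_lt]
      rw [this]
      exact (hctb β).insert β
    obtain ⟨b, hb⟩ := exists_bound hunc hctb hs
    exact ⟨b, hb _ (by simp), fun γ hγ => hb _ (Or.inr ⟨γ, hγ, rfl⟩)⟩
  choose k hk1 hk4 using hk
  let b : ℕ → Ω := fun n => k^[n] b0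
  have hbs : ∀ n, b (n + 1) = k (b n) := by
    intro n
    exact Function.iterate_succ_apply' k n b0
  obtain ⟨u, hu⟩ := exists_bound hunc hctb (Set.countable_range b)
  let U : Set Ω := {u | ∀ n, b n < u}
  have hU : U.Nonempty := ⟨u, fun n => hu _ ⟨n, rfl⟩⟩
  let α := WellFounded.min (wellFounded_lt (α := Ω)) U hU
  have hαU : ∀ n, b n < α := WellFounded.min_mem (wellFounded_lt (α := Ω)) U hU
  have hαmin : ∀ β < α, ∃ n, β ≤ b n := by
    intro β hβ
    by_contra hcon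
    push Not at hcon
    exact WellFounded.not_lt_min (wellFounded_lt (α := Ω)) U (x := β) hcon hβ
  refine ⟨α, hαU 0, ⟨b 0, hαU 0⟩, ?_⟩
  intro β hβ
  obtain ⟨n, hn⟩ := hαmin β hβ
  have := hk4 (b n) β hn
  rw [← hbs] at this
  exact this.trans (hαU _)

lemma isClub_good (hunc : ¬ (univ : Set Ω).Countable) (hctb : ∀ a : Ω, (Iio a).Countable)
    (h : Ω → Ω) : IsClub {α | Good h α} := by
  refine ⟨fun β => ?_, fun α hα hcl => ⟨hα, fun β hβ => ?_⟩⟩
  · obtain ⟨α, h1, h2⟩ := exists_good hunc hctb h β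
    exact ⟨α, h2, h1⟩
  · obtain ⟨γ, hγ, h1, h2⟩ := hcl β hβ
    exact (hγ.2 β h1).trans h2

/-- The part of `α` that the automorphism moves out of `α`. -/
def lad (g : Set Ω → Set Ω) (α : Ω) : Set Ω := Iio α \ g (Iio α)

omit [WellFoundedLT Ω] in
lemma lad_orth {f g : Set Ω → Set Ω} (hL : Lift f g) (h : Ω → Ω)
    (hf : ∀ β, f (Iio β) ⊆ Iio (h β)) {α : Ω} (hα : Good h α) {β : Ω} (hβ : β < α) :
    (lad g α ∩ Iio β).Finite := by
  have h1 : le' (Iio β) (g (Iio α)) :=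
    le'_trans (hL.gf (Iio β)).2 (hL.monoInv _ _ (le'_of_subset
      ((hf β).trans (Iio_subset_Iio (hα.2 β hβ).le))))
  refine h1.subset ?_
  intro x hx
  exact ⟨hx.2, hx.1.2⟩

omit [WellFoundedLT Ω] in
lemma uniformize {f g : Set Ω → Set Ω} (hL : Lift f g) (h : Ω → Ω)
    (hf : ∀ β, f (Iio β) ⊆ Iio (h β)) (x : Ω → Set Ω) (S : Set Ω) (hS : ∀ α ∈ S, Good h α)
    (hx : ∀ α ∈ S, x α ⊆ lad g α) :
    ∃ X : Set Ω, ∀ α ∈ S, eq' (X ∩ lad g α) (x α) := by
  let C : Ω → Set Ω := fun α => f (lad g α) ∩ Ico α (h α)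
  have hC : ∀ α, eq' (f (lad g α)) (C α) := by
    intro α
    refine ⟨le'_inter (le'_refl _) ?_, le'_of_subset inter_subset_left⟩
    have h1 : (f (lad g α) ∩ Iio α).Finite := by
      rw [← le'_empty_iff]
      have e1 : le' (f (lad g α) ∩ Iio α) (f (lad g α) ∩ f (g (Iio α))) :=
        (eq'_inter (eq'_refl _) (eq'_symm (hL.fg (Iio α)))).1
      have e2 := (hL.inter (lad g α) (g (Iio α))).2
      have e3 : lad g α ∩ g (Iio α) = ∅ := by
        ext y
        simp [lad]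
      rw [e3] at e2
      exact le'_trans e1 (le'_trans e2 hL.empty.1)
    have h2 : (f (lad g α) \ Iio (h α)).Finite := by
      have e1 : le' (f (lad g α)) (f (Iio α)) :=
        hL.mono _ _ (le'_of_subset sdiff_subset)
      exact le'_trans e1 (le'_of_subset (hf α))
    refine (h1.union h2).subset ?_
    intro y hy
    by_cases hyα : y < α
    · exact Or.inl ⟨hy.1, hyα⟩
    · refine Or.inr ⟨hy.1, fun hyh => hy.2 ⟨not_lt.1 hyα, hyh⟩⟩
  let Y : Set Ω := {η | ∃ α ∈ S, η ∈ f (x α) ∩ C α}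
  have hYC : ∀ α ∈ S, Y ∩ C α = f (x α) ∩ C α := by
    intro α hα
    ext η
    constructor
    · rintro ⟨⟨α', hα', hη'⟩, hη⟩
      have h1 := hη.2
      have h2 := hη'.2.2
      have hαα' : α = α' := by
        rcases lt_trichotomy α α' with hlt | heq | hgt
        · exact absurd (h1.2.trans ((hS α' hα').2 α hlt)) (not_lt.2 h2.1)
        · exact heq
        · exact absurd (h2.2.trans ((hS α hα).2 α' hgt)) (not_lt.2 h1.1)
      subst hαα'
      exact hη'
    · intro hη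
      exact ⟨⟨α, hα, hη⟩, hη.2⟩
  refine ⟨g Y, fun α hα => ?_⟩
  have e1 : eq' (g Y ∩ lad g α) (g Y ∩ g (f (lad g α))) :=
    eq'_inter (eq'_refl _) (eq'_symm (hL.gf _))
  have e2 : eq' (g Y ∩ g (f (lad g α))) (g (Y ∩ f (lad g α))) :=
    eq'_symm (hL.symm.inter _ _)
  have e3 : eq' (Y ∩ f (lad g α)) (Y ∩ C α) := eq'_inter (eq'_refl _) (hC α)
  rw [hYC α hα] at e3
  have e4 : eq' (f (x α) ∩ C α) (f (x α) ∩ f (lad g α)) :=
    eq'_inter (eq'_refl _) (eq'_symm (hC α))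
  have e5 : eq' (f (x α) ∩ f (lad g α)) (f (x α ∩ lad g α)) := eq'_symm (hL.inter _ _)
  rw [inter_eq_left.2 (hx α hα)] at e5
  have e6 : eq' (Y ∩ f (lad g α)) (f (x α)) := eq'_trans e3 (eq'_trans e4 e5)
  exact eq'_trans e1 (eq'_trans e2 (eq'_trans (hL.symm.congr e6) (hL.gf _)))

omit [WellFoundedLT Ω] in
lemma fixed_of_finite {f g : Set Ω → Set Ω} (hL : Lift f g) {α : Ω}
    (h1 : ¬ (lad g α).Infinite) (h2 : ¬ (lad f α).Infinite) : eq' (f (Iio α)) (Iio α) := by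
  have h1' : le' (Iio α) (g (Iio α)) := by simpa [lad, le'] using h1
  have h2' : le' (Iio α) (f (Iio α)) := by simpa [lad, le'] using h2
  exact ⟨le'_trans (hL.mono _ _ h1') (hL.fg _).1, h2'⟩

omit [WellFoundedLT Ω] in
lemma uniformizable_lad {f g : Set Ω → Set Ω} (hL : Lift f g) (h : Ω → Ω)
    (hf : ∀ β, f (Iio β) ⊆ Iio (h β)) :
    Uniformizable {α | Good h α ∧ (lad g α).Infinite} := by
  refine ⟨lad g, fun α hα => ⟨hα.2, sdiff_subset, fun β hβ => lad_orth hL h hf hα.1 hβ⟩,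
    fun x => ?_⟩
  obtain ⟨X, hX⟩ := uniformize hL h hf (fun α => x α ∩ lad g α)
    {α | Good h α ∧ (lad g α).Infinite} (fun α hα => hα.1) (fun α _ => inter_subset_right)
  refine ⟨X, fun α hα => ?_⟩
  rw [Set.symmDiff_def]
  exact (hX α hα).1.union (hX α hα).2

end order


section katowice
variable {Ω : Type} [LinearOrder Ω] [WellFoundedLT Ω]

lemma mk_le_aleph_one (hctb : ∀ a : Ω, (Iio a).Countable) : Cardinal.mk Ω ≤ Cardinal.aleph 1 := by
  have h1 : Ordinal.type (α := Ω) (· < ·) ≤ (Cardinal.aleph 1).ord := by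
    refine le_of_forall_lt fun o ho => ?_
    obtain ⟨a, rfl⟩ := Ordinal.typein_surj (· < ·) ho
    rw [Cardinal.lt_ord]
    have h2 : (Ordinal.typein (α := Ω) (· < ·) a).card = Cardinal.mk (Iio a) := rfl
    rw [h2]
    have h3 : Cardinal.mk (Iio a) ≤ Cardinal.aleph0 :=
      Cardinal.le_aleph0_iff_set_countable.2 (hctb a)
    exact h3.trans_lt Cardinal.aleph0_lt_aleph_one
  have h4 := Ordinal.card_le_card h1
  rwa [Cardinal.card_ord, Ordinal.card_type] at h4

lemma exists_emb (hctb : ∀ a : Ω, (Iio a).Countable) (B : Set Ω) (hB : ¬ B.Countable) :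
    Nonempty ((Ω × ℕ) ↪ B) := by
  have hge : Cardinal.aleph 1 ≤ Cardinal.mk B := by
    rw [← Cardinal.succ_aleph0]
    apply Order.succ_le_of_lt
    rw [← not_le, Cardinal.le_aleph0_iff_set_countable]
    exact hB
  have h1 : Cardinal.mk (Ω × ℕ) ≤ Cardinal.mk B := by
    rw [Cardinal.mk_prod, Cardinal.lift_id, Cardinal.lift_id, Cardinal.mk_nat]
    refine le_trans ?_ hge
    refine (mul_le_mul' (mk_le_aleph_one hctb) (Cardinal.aleph0_le_aleph 1)).trans ?_
    rw [Cardinal.mul_eq_self (Cardinal.aleph0_le_aleph 1)]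
  exact Cardinal.le_def _ _ |>.1 h1

/-- If an automorphism sends a countable set to an uncountable one, there is a strong
Q-sequence: `ω₁` many infinite subsets of a countable set, simultaneously uniformizable. -/
lemma strongQ (hctb : ∀ a : Ω, (Iio a).Countable) {f g : Set Ω → Set Ω} (hL : Lift f g)
    (A : Set Ω) (hfA : ¬ (f A).Countable) :
    ∃ a : Ω → Set Ω, (∀ α, (a α).Infinite ∧ a α ⊆ A) ∧
      ∀ y : Ω → Set Ω, ∃ X : Set Ω, ∀ α, eq' (X ∩ a α) (y α ∩ a α) := by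
  obtain ⟨e⟩ := exists_emb hctb (f A) hfA
  let P : Ω → Set Ω := fun α => range fun n : ℕ => (e (α, n) : Ω)
  have hPinf : ∀ α, (P α).Infinite := by
    intro α
    apply Set.infinite_range_of_injective
    intro m n hmn
    have := e.injective (Subtype.ext hmn)
    simpa using this
  have hPsub : ∀ α, P α ⊆ f A := by
    rintro α _ ⟨n, rfl⟩
    exact (e (α, n)).2
  have hPdis : ∀ α β η, η ∈ P α → η ∈ P β → α = β := by
    rintro α β _ ⟨m, rfl⟩ ⟨n, hn⟩
    have := e.injective (Subtype.ext hn)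
    simp only [Prod.mk.injEq] at this
    exact this.1.symm
  have ha : ∀ α, eq' (g (P α) ∩ A) (g (P α)) := by
    intro α
    refine ⟨le'_of_subset inter_subset_left, le'_inter (le'_refl _) ?_⟩
    exact le'_trans (hL.monoInv _ _ (le'_of_subset (hPsub α))) (hL.gf A).1
  refine ⟨fun α => g (P α) ∩ A, fun α => ⟨?_, inter_subset_right⟩, ?_⟩
  · intro hfin
    have h1 : le' (g (P α)) ∅ := le'_trans (ha α).2 (le'_empty_iff.2 hfin)
    have h2 : le' (f (g (P α))) ∅ := le'_trans (hL.mono _ _ h1) hL.empty.1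
    exact hPinf α (le'_empty_iff.1 (le'_trans (hL.fg _).2 h2))
  · intro y
    let Y : Set Ω := {η | ∃ α, η ∈ f (y α ∩ (g (P α) ∩ A)) ∩ P α}
    have hYP : ∀ α, Y ∩ P α = f (y α ∩ (g (P α) ∩ A)) ∩ P α := by
      intro α
      ext η
      constructor
      · rintro ⟨⟨α', hη'⟩, hη⟩
        have := hPdis _ _ _ hη'.2 hη
        subst this
        exact hη'
      · intro hη
        exact ⟨⟨α, hη⟩, hη.2⟩
    refine ⟨g Y, fun α => ?_⟩
    have e1 : eq' (g Y ∩ (g (P α) ∩ A)) (g Y ∩ g (P α)) := eq'_inter (eq'_refl _) (ha α)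
    have e2 : eq' (g Y ∩ g (P α)) (g (Y ∩ P α)) := eq'_symm (hL.symm.inter _ _)
    rw [hYP α] at e2
    have e3 : eq' (f (y α ∩ (g (P α) ∩ A)) ∩ P α)
        (f (y α ∩ (g (P α) ∩ A)) ∩ f (g (P α))) :=
      eq'_inter (eq'_refl _) (eq'_symm (hL.fg _))
    have e4 := eq'_symm (hL.inter (y α ∩ (g (P α) ∩ A)) (g (P α)))
    have e5 : y α ∩ (g (P α) ∩ A) ∩ g (P α) = y α ∩ (g (P α) ∩ A) := by
      ext η
      simp only [mem_inter_iff]
      tauto
    rw [e5] at e4
    exact eq'_trans e1 (eq'_trans e2 (eq'_trans (hL.symm.congr (eq'_trans e3 e4)) (hL.gf _)))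

/-- A strong Q-sequence gives a uniformizable ladder system on a closed unbounded set. -/
lemma uniformizable_of_strongQ (hunc : ¬ (univ : Set Ω).Countable)
    (hctb : ∀ a : Ω, (Iio a).Countable) (A : Set Ω) (hA : A.Countable) (a : Ω → Set Ω)
    (ha : ∀ α, (a α).Infinite ∧ a α ⊆ A)
    (hu : ∀ y : Ω → Set Ω, ∃ X : Set Ω, ∀ α, eq' (X ∩ a α) (y α ∩ a α)) :
    ∃ E : Set Ω, IsClub E ∧ Uniformizable E := by
  classical
  obtain ⟨q, hq⟩ := Set.countable_iff_exists_injOn.1 hA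
  -- a map with unbounded fibres
  obtain ⟨e⟩ := exists_emb hctb (univ : Set Ω) hunc
  have hp : ∃ p : Ω → ℕ, ∀ n β, ∃ γ, β < γ ∧ p γ = n := by
    refine ⟨fun γ => if hγ : ∃ x : Ω × ℕ, (e x : Ω) = γ then hγ.choose.2 else 0, ?_⟩
    intro n β
    by_contra hcon
    push Not at hcon
    apply hunc
    have h1 : ∀ α : Ω, ((e (α, n) : univ) : Ω) ∈ Iic β := by
      intro α
      by_contra h2
      refine hcon (e (α, n)) (not_le.1 h2) ?_
      have hex : ∃ x : Ω × ℕ, ((e x : univ) : Ω) = (e (α, n) : univ) := ⟨_, rfl⟩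
      rw [dif_pos hex]
      have := e.injective (Subtype.ext hex.choose_spec)
      rw [this]
    have h3 : (Iic β).Countable := by
      have : Iic β = insert β (Iio β) := by
        ext y
        simp [le_iff_eq_or_lt]
      rw [this]
      exact (hctb β).insert β
    have h4 : MapsTo (fun α : Ω => ((e (α, n) : univ) : Ω)) univ (Iic β) := fun α _ => h1 α
    refine h4.countable_of_injOn ?_ h3
    intro x _ y _ hxy
    have := e.injective (Subtype.ext hxy)
    simpa using this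
  obtain ⟨p, hp⟩ := hp
  choose c hc1 hc2 using hp
  have hh : ∀ β : Ω, ∃ b : Ω, ∀ n, c n β < b := by
    intro β
    obtain ⟨b, hb⟩ := exists_bound hunc hctb (Set.countable_range fun n => c n β)
    exact ⟨b, fun n => hb _ ⟨n, rfl⟩⟩
  choose h hh using hh
  refine ⟨{α | Good h α}, isClub_good hunc hctb h, ?_⟩
  -- ladders
  have hlad : ∀ α, Good h α → ∃ η : ℕ → Ω, (∀ k, η k < α) ∧
      (∀ β < α, {k | η k < β}.Finite) ∧ ∀ k, p (η k) = Nat.nth (· ∈ q '' a α) k := by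
    intro α hα
    obtain ⟨s, hs⟩ := (hctb α).exists_eq_range hα.1
    have hsα : ∀ i, s i < α := fun i => by
      have : s i ∈ Iio α := by rw [hs]; exact ⟨i, rfl⟩
      exact this
    have hmax : ∀ k, ∃ β < α, ∀ i ≤ k, s i ≤ β := by
      intro k
      induction k with
      | zero => exact ⟨s 0, hsα 0, fun i hi => by rw [Nat.le_zero.1 hi]⟩
      | succ k ih =>
        obtain ⟨β, hβ, hβ'⟩ := ih
        refine ⟨max β (s (k + 1)), max_lt hβ (hsα _), fun i hi => ?_⟩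
        rcases Nat.le_succ_iff.1 hi with h1 | h1
        · exact (hβ' i h1).trans (le_max_left _ _)
        · rw [h1]
          exact le_max_right _ _
    choose b hb1 hb2 using hmax
    refine ⟨fun k => c (Nat.nth (· ∈ q '' a α) k) (b k), ?_, ?_, ?_⟩
    · intro k
      exact (hh (b k) _).trans (hα.2 _ (hb1 k))
    · intro β hβ
      have : β ∈ range s := by rw [← hs]; exact hβ
      obtain ⟨i, rfl⟩ := this
      refine (Set.finite_lt_nat i).subset ?_
      intro k hk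
      by_contra hik
      have h1 : s i ≤ b k := hb2 k i (not_lt.1 hik)
      exact absurd (h1.trans_lt (hc1 _ _)) (not_lt.2 (le_of_lt hk))
    · intro k
      exact hc2 _ _
  choose! η hη1 hη2 hη3 using hlad
  have hNinf : ∀ α, (q '' a α).Infinite := fun α =>
    (ha α).1.image (hq.mono (ha α).2)
  have hinj : ∀ α, Good h α → InjOn p (range (η α)) := by
    rintro α hα _ ⟨k, rfl⟩ _ ⟨l, rfl⟩ hkl
    rw [hη3 α hα, hη3 α hα] at hkl
    rw [(Nat.nth_strictMono (hNinf α)).injective hkl]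
  refine ⟨fun α => range (η α), fun α hα => ⟨?_, ?_, ?_⟩, ?_⟩
  · apply Set.infinite_range_of_injective
    intro k l hkl
    have : p (η α k) = p (η α l) := by rw [hkl]
    rw [hη3 α hα, hη3 α hα] at this
    exact (Nat.nth_strictMono (hNinf α)).injective this
  · rintro _ ⟨k, rfl⟩
    exact hη1 α hα k
  · intro β hβ
    refine ((hη2 α hα β hβ).image (η α)).subset ?_
    rintro _ ⟨⟨k, rfl⟩, hk⟩
    exact ⟨k, hk, rfl⟩
  · intro x
    obtain ⟨X, hX⟩ := hu fun α => {u | ∃ ζ ∈ x α ∩ range (η α), p ζ = q u}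
    refine ⟨{ζ | ∃ u ∈ X ∩ A, q u = p ζ}, fun α hα => ?_⟩
    have hfin := (hX α).1.union (hX α).2
    refine Set.Finite.of_finite_image (f := p) ((hfin.image q).subset ?_)
      ((hinj α hα).mono ?_)
    · rintro _ ⟨ζ, hζ, rfl⟩
      have hζL : ζ ∈ range (η α) := by
        rcases hζ with hζ | hζ
        · exact hζ.1.2
        · exact hζ.1.2
      have hex : ∃ u ∈ a α, q u = p ζ := by
        obtain ⟨k, rfl⟩ := hζL
        rw [hη3 α hα]
        exact Nat.nth_mem_of_infinite (hNinf α) k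
      obtain ⟨u, hu1, hu2⟩ := hex
      have hX' : ζ ∈ {ζ | ∃ u ∈ X ∩ A, q u = p ζ} ↔ u ∈ X := by
        constructor
        · rintro ⟨v, hv1, hv2⟩
          have : v = u := hq hv1.2 ((ha α).2 hu1) (hv2.trans hu2.symm)
          rw [← this]
          exact hv1.1
        · intro hu3
          exact ⟨u, ⟨hu3, (ha α).2 hu1⟩, hu2⟩
      have hx' : ζ ∈ x α ↔ u ∈ {u | ∃ ζ ∈ x α ∩ range (η α), p ζ = q u} := by
        constructor
        · intro h1
          exact ⟨ζ, ⟨h1, hζL⟩, hu2.symm⟩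
        · rintro ⟨ξ, hξ1, hξ2⟩
          have : ξ = ζ := hinj α hα hξ1.2 hζL (hξ2.trans hu2)
          rw [← this]
          exact hξ1.1
      refine ⟨u, ?_, hu2⟩
      rcases hζ with hζ | hζ
      · exact Or.inl ⟨⟨hX'.1 hζ.1.1, hu1⟩, fun h2 => hζ.2 ⟨hx'.2 h2.1, hζL⟩⟩
      · exact Or.inr ⟨⟨hx'.1 hζ.1.1, hu1⟩, fun h2 => hζ.2 ⟨hX'.2 h2.1, hζL⟩⟩
    · intro ζ hζ
      rcases hζ with hζ | hζ
      · exact hζ.1.2
      · exact hζ.1.2

end katowice

section merge
variable {Ω : Type} [LinearOrder Ω] [WellFoundedLT Ω]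

/-- The union of two sets carrying uniformizable ladder systems carries one, up to a closed
unbounded set. -/
lemma uniformizable_union (hunc : ¬ (univ : Set Ω).Countable)
    (hctb : ∀ a : Ω, (Iio a).Countable) (h : Ω → Ω) (S₁ S₂ : Set Ω)
    (h₁ : Uniformizable S₁) (h₂ : Uniformizable S₂) :
    ∃ H : Ω → Ω, (∀ β, h β < H β) ∧ Uniformizable ((S₁ ∪ S₂) ∩ {α | Good H α}) := by
  classical
  obtain ⟨D₁, hD₁, hU₁⟩ := h₁
  obtain ⟨D₂, hD₂, hU₂⟩ := h₂
  obtain ⟨e⟩ := exists_emb hctb (univ : Set Ω) hunc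
  let b : ℕ → Ω → Ω := fun i η => ((e (η, i) : univ) : Ω)
  have hb : ∀ i j η ζ, b i η = b j ζ → i = j ∧ η = ζ := by
    intro i j η ζ hij
    have := e.injective (Subtype.ext hij)
    simp only [Prod.mk.injEq] at this
    exact ⟨this.2, this.1⟩
  have hbinj : ∀ i, Function.Injective (b i) := fun i η ζ hηζ => (hb i i η ζ hηζ).2
  have hH : ∀ β : Ω, ∃ H : Ω, h β < H ∧ (∀ i, b i β < H) ∧ ∀ i η, b i η < β → η < H := by
    intro β
    have hs : ({h β} ∪ (range fun i => b i β) ∪ ⋃ i, (b i) ⁻¹' (Iio β)).Countable := by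
      refine ((Set.countable_singleton _).union (Set.countable_range _)).union ?_
      refine Set.countable_iUnion fun i => ?_
      exact (hctb β).preimage_of_injOn (hbinj i).injOn
    obtain ⟨H, hH⟩ := exists_bound hunc hctb hs
    refine ⟨H, hH _ (Or.inl (Or.inl rfl)), fun i => hH _ (Or.inl (Or.inr ⟨i, rfl⟩)), ?_⟩
    intro i η hη
    exact hH _ (Or.inr (mem_iUnion.2 ⟨i, hη⟩))
  choose H hH1 hH2 hH3 using hH
  have key : ∀ (i : ℕ) (D : Ω → Set Ω) (α : Ω), Good H α →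
      ((D α).Infinite ∧ D α ⊆ Iio α ∧ ∀ β < α, (D α ∩ Iio β).Finite) →
      ((b i '' D α).Infinite ∧ b i '' D α ⊆ Iio α ∧
        ∀ β < α, (b i '' D α ∩ Iio β).Finite) := by
    intro i D α hα hD
    refine ⟨hD.1.image (hbinj i).injOn, ?_, ?_⟩
    · rintro _ ⟨η, hη, rfl⟩
      exact (hH2 η i).trans (hα.2 η (hD.2.1 hη))
    · intro β hβ
      refine ((hD.2.2 (H β) (hα.2 β hβ)).image (b i)).subset ?_
      rintro _ ⟨⟨η, hη, rfl⟩, hηβ⟩
      exact ⟨η, ⟨hη, hH3 β i η hηβ⟩, rfl⟩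
  refine ⟨H, hH1, fun α => if α ∈ S₁ then b 0 '' D₁ α else b 1 '' D₂ α, ?_, ?_⟩
  · rintro α ⟨hα, hG⟩
    by_cases hα1 : α ∈ S₁
    · simp only [if_pos hα1]
      exact key 0 D₁ α hG (hD₁ α hα1)
    · simp only [if_neg hα1]
      exact key 1 D₂ α hG (hD₂ α (hα.resolve_left hα1))
  · intro x
    obtain ⟨X₁, hX₁⟩ := hU₁ fun α => b 0 ⁻¹' x α
    obtain ⟨X₂, hX₂⟩ := hU₂ fun α => b 1 ⁻¹' x α
    refine ⟨b 0 '' X₁ ∪ b 1 '' X₂, ?_⟩
    rintro α ⟨hα, hG⟩
    by_cases hα1 : α ∈ S₁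
    · simp only [if_pos hα1]
      refine ((hX₁ α hα1).image (b 0)).subset ?_
      rintro ζ (⟨⟨h1, ⟨η, hη, rfl⟩⟩, h2⟩ | ⟨⟨h1, ⟨η, hη, rfl⟩⟩, h2⟩)
      · refine ⟨η, Or.inl ⟨⟨?_, hη⟩, ?_⟩, rfl⟩
        · rcases h1 with ⟨ξ, hξ, hξ'⟩ | ⟨ξ, hξ, hξ'⟩
          · rwa [hbinj 0 hξ'] at hξ
          · exact absurd (hb _ _ _ _ hξ').1 (by norm_num)
        · rintro ⟨h3, h4⟩
          exact h2 ⟨h3, ⟨η, hη, rfl⟩⟩
      · refine ⟨η, Or.inr ⟨⟨h1, hη⟩, ?_⟩, rfl⟩
        rintro ⟨h3, h4⟩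
        exact h2 ⟨Or.inl ⟨η, h3, rfl⟩, ⟨η, hη, rfl⟩⟩
    · simp only [if_neg hα1]
      refine ((hX₂ α (hα.resolve_left hα1)).image (b 1)).subset ?_
      rintro ζ (⟨⟨h1, ⟨η, hη, rfl⟩⟩, h2⟩ | ⟨⟨h1, ⟨η, hη, rfl⟩⟩, h2⟩)
      · refine ⟨η, Or.inl ⟨⟨?_, hη⟩, ?_⟩, rfl⟩
        · rcases h1 with ⟨ξ, hξ, hξ'⟩ | ⟨ξ, hξ, hξ'⟩
          · exact absurd (hb _ _ _ _ hξ').1 (by norm_num)
          · rwa [hbinj 1 hξ'] at hξ
        · rintro ⟨h3, h4⟩
          exact h2 ⟨h3, ⟨η, hη, rfl⟩⟩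
      · refine ⟨η, Or.inr ⟨⟨h1, hη⟩, ?_⟩, rfl⟩
        rintro ⟨h3, h4⟩
        exact h2 ⟨Or.inr ⟨η, h3, rfl⟩, ⟨η, hη, rfl⟩⟩

end merge

section final
variable {Ω : Type}

lemma cls_le {A B : Set Ω} : cls A ≤ cls B ↔ le' A B :=
  toAntisymmetrization_le_toAntisymmetrization_iff (α := ModFin Ω)

lemma cls_eq {A B : Set Ω} : cls A = cls B ↔ eq' A B := by
  constructor
  · intro h
    exact ⟨cls_le.1 h.le, cls_le.1 h.ge⟩
  · intro h
    exact le_antisymm (cls_le.2 h.1) (cls_le.2 h.2)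

lemma exists_cls (a : PFin Ω) : ∃ A : Set Ω, cls A = a := by
  obtain ⟨A, hA⟩ := Quotient.exists_rep a
  exact ⟨A, hA⟩

/-- Every automorphism has a pair of liftings. -/
lemma exists_lift (π : PFin Ω ≃o PFin Ω) :
    ∃ f g : Set Ω → Set Ω, Lift f g ∧ (∀ A, cls (f A) = π (cls A)) ∧
      ∀ A, cls (g A) = π.symm (cls A) := by
  choose f hf using fun A : Set Ω => exists_cls (π (cls A))
  choose g hg using fun A : Set Ω => exists_cls (π.symm (cls A))
  refine ⟨f, g, ⟨?_, ?_, ?_, ?_⟩, hf, hg⟩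
  · intro A B h
    rw [← cls_le, hf, hf]
    exact π.monotone (cls_le.2 h)
  · intro A B h
    rw [← cls_le, hg, hg]
    exact π.symm.monotone (cls_le.2 h)
  · intro A
    rw [← cls_eq, hf, hg]
    simp
  · intro A
    rw [← cls_eq, hg, hf]
    simp

end final

/-- **Main theorem.** Let `Ω` be a well-order of type `ω₁` and `π` an automorphism of
`𝒫(Ω)/Fin`. There are a closed unbounded set `E` and a set `S` that carries a uniformizable ladder
system such that, for every `α ∈ E`, either `π` fixes the class of the initial segment `α`, or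
`α ∈ S`. -/
theorem result (Ω : Type) [LinearOrder Ω] [WellFoundedLT Ω]
    (hunc : ¬ (univ : Set Ω).Countable) (hctb : ∀ a : Ω, (Iio a).Countable)
    (π : PFin Ω ≃o PFin Ω) :
    ∃ E S : Set Ω, IsClub E ∧ Uniformizable S ∧
      ∀ α ∈ E, π (cls (Iio α)) = cls (Iio α) ∨ α ∈ S := by
  classical
  obtain ⟨f, g, hL, hf, hg⟩ := exists_lift π
  by_cases hfc : ∀ A : Set Ω, A.Countable → (f A).Countable
  swap
  · push Not at hfc
    obtain ⟨A, hA, hfA⟩ := hfc
    obtain ⟨a, ha, hu⟩ := strongQ hctb hL A hfA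
    obtain ⟨E, hE, hEu⟩ := uniformizable_of_strongQ hunc hctb A hA a ha hu
    exact ⟨E, E, hE, hEu, fun α hα => Or.inr hα⟩
  by_cases hgc : ∀ A : Set Ω, A.Countable → (g A).Countable
  swap
  · push Not at hgc
    obtain ⟨A, hA, hgA⟩ := hgc
    obtain ⟨a, ha, hu⟩ := strongQ hctb hL.symm A hgA
    obtain ⟨E, hE, hEu⟩ := uniformizable_of_strongQ hunc hctb A hA a ha hu
    exact ⟨E, E, hE, hEu, fun α hα => Or.inr hα⟩
  have hh : ∀ β : Ω, ∃ b : Ω, f (Iio β) ⊆ Iio b ∧ g (Iio β) ⊆ Iio b := by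
    intro β
    obtain ⟨b, hb⟩ := exists_bound hunc hctb ((hfc _ (hctb β)).union (hgc _ (hctb β)))
    exact ⟨b, fun x hx => hb x (Or.inl hx), fun x hx => hb x (Or.inr hx)⟩
  choose h h1 h2 using hh
  obtain ⟨H, hH, hU⟩ := uniformizable_union hunc hctb h _ _
    (uniformizable_lad hL h h1) (uniformizable_lad hL.symm h h2)
  refine ⟨{α | Good H α}, _, isClub_good hunc hctb H, hU, ?_⟩
  intro α hα
  have hα' : Good h α := ⟨hα.1, fun β hβ => (hH β).trans (hα.2 β hβ)⟩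
  by_cases c1 : (lad g α).Infinite
  · exact Or.inr ⟨Or.inl ⟨hα', c1⟩, hα⟩
  by_cases c2 : (lad f α).Infinite
  · exact Or.inr ⟨Or.inr ⟨hα', c2⟩, hα⟩
  left
  rw [← hf, cls_eq]
  exact fixed_of_finite hL c1 c2

end Pool.Agent.Results.MP_913d7c_lc.LadderUniformization
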